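import Mathlib
import Pool.Agent.H570.CD.QAll

/-!
# Linear families on the lines `x + y = n`: almost all `n`, in all ranges from the critical size on
-/

set_option autoImplicit false

namespace Pool.Agent.Results.MP_0da313_nt.AlmostEveryTotal

open Finset Filter Topology

/-- The shape of the family: `f_i(x, y) = a_i + d (α_i x + β_i y)`, `i = 1, …, m`, with `α_i - β_i = 1` or `-1`;
`α_i, β_i ≥ 0`. -/
def Shape {m : ℕ} (α β : Fin m → ℕ) : Prop := ∀ i, α i = β i + 1 ∨ β i = α i + 1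

/-- the value `f_i(x, y)` of the member `i` of the family given by `v = (d, a)` -/
def val {m : ℕ} (α β : Fin m → ℕ) (v : ℕ × (Fin m → ℕ)) (i : Fin m) (x y : ℤ) : ℤ :=
  v.2 i + v.1 * (α i * x + β i * y)

/-- all values at `(x, y)` are primes -/
def AllPrime {m : ℕ} (α β : Fin m → ℕ) (v : ℕ × (Fin m → ℕ)) (x y : ℕ) : Prop :=
  ∀ i, Prime (val α β v i x y)

open Classical in
/-- the number of `(x, y)`, `x, y ≥ 1`, `x + y = n`, at which all values are primes -/
noncomputable def reps {m : ℕ} (α β : Fin m → ℕ) (v : ℕ × (Fin m → ℕ)) (n : ℕ) : ℕ :=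
  ((Ioo 0 n).filter (fun x => AllPrime α β v x (n - x))).card

/-- the number of the residues `x` modulo `p` such that `p` divides one of the values at `(x, n - x)` -/
def rho {m : ℕ} (α β : Fin m → ℕ) (v : ℕ × (Fin m → ℕ)) (n p : ℕ) : ℕ :=
  ((range p).filter (fun x : ℕ => ∃ i, (p : ℤ) ∣ val α β v i x ((n : ℤ) - x))).card

/-- the partial products of the singular series of the polynomials `f_i(x, n - x)` -/
noncomputable def partialSeries {m : ℕ} (α β : Fin m → ℕ) (v : ℕ × (Fin m → ℕ)) (n z : ℕ) : ℝ :=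
  ∏ p ∈ (Icc 1 z).filter Nat.Prime, (1 - (rho α β v n p : ℝ) / p) / (1 - 1 / (p : ℝ)) ^ m

/-- all vectors `(d, a)` with `t < d ≤ t + H` and `s i < a_i ≤ s i + H` -/
def Box {m : ℕ} (t : ℕ) (s : Fin m → ℕ) (H : ℕ) : Finset (ℕ × (Fin m → ℕ)) :=
  Ioc t (t + H) ×ˢ Fintype.piFinset (fun i => Ioc (s i) (s i + H))

/-- The singular series on the line `x + y = n` converges, to `S` say; `S ≥ c₀` if no prime divides the product of the
values at all `x`; and the number of the representations is `(1 + O(ε)) S (n - 1) / (log H) ^ m`. -/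
def Formula {m : ℕ} (α β : Fin m → ℕ) (c₀ ε : ℝ) (H : ℕ) (v : ℕ × (Fin m → ℕ)) (n : ℕ) : Prop :=
  ∃ S : ℝ, Tendsto (partialSeries α β v n) atTop (𝓝 S) ∧ ((∀ p : ℕ, p.Prime → rho α β v n p < p) → c₀ ≤ S) ∧
    |(reps α β v n : ℝ) - S * (n - 1) / Real.log H ^ m| ≤ ε * (S * (n - 1) / Real.log H ^ m)

open Classical in
/-- the number of the `n ≤ N` for which the formula fails -/
noncomputable def failures {m : ℕ} (α β : Fin m → ℕ) (c₀ ε : ℝ) (H : ℕ) (v : ℕ × (Fin m → ℕ)) (N : ℕ) : ℕ :=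
  ((Icc 1 N).filter (fun n => ¬ Formula α β c₀ ε H v n)).card

open Classical in
/-- the number of the `n ≤ N` which have a representation -/
noncomputable def represented {m : ℕ} (α β : Fin m → ℕ) (v : ℕ × (Fin m → ℕ)) (N : ℕ) : ℕ :=
  ((Icc 1 N).filter (fun n => ∃ x y : ℕ, 1 ≤ x ∧ 1 ≤ y ∧ x + y = n ∧ AllPrime α β v x y)).card

/-- the system without the corner of the box -/
def red {m : ℕ} (s : Fin m → ℕ) (v : ℕ × (Fin m → ℕ)) : ℕ × (Fin m → ℕ) := (v.1, fun i => v.2 i - s i)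

lemma red_mem {m : ℕ} (t : ℕ) (s : Fin m → ℕ) (H : ℕ) (v : ℕ × (Fin m → ℕ)) (hv : v ∈ Box t s H) :
    red s v ∈ Pool.Agent.H570.CD.Om m t H ∧ ∀ i, (red s v).2 i + s i = v.2 i := by
  unfold Box at hv
  obtain ⟨h1, h2⟩ := Finset.mem_product.1 hv
  have h3 : ∀ i, s i < v.2 i ∧ v.2 i ≤ s i + H := fun i => mem_Ioc.1 (Fintype.mem_piFinset.1 h2 i)
  refine ⟨?_, fun i => ?_⟩
  · unfold Pool.Agent.H570.CD.Om Pool.Agent.H570.CD.XB
    refine Finset.mem_product.2 ⟨h1, Fintype.mem_piFinset.2 fun i => ?_⟩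
    show v.2 i - s i ∈ Ioc 0 H
    have := h3 i
    exact mem_Ioc.2 ⟨by omega, by omega⟩
  · show v.2 i - s i + s i = v.2 i
    have := h3 i
    omega

lemma red_inj {m : ℕ} (t : ℕ) (s : Fin m → ℕ) (H : ℕ) (v v' : ℕ × (Fin m → ℕ)) (hv : v ∈ Box t s H) (hv' : v' ∈ Box t s H)
    (h : red s v = red s v') : v = v' := by
  have h1 := (red_mem t s H v hv).2
  have h2 := (red_mem t s H v' hv').2
  refine Prod.ext ?_ (funext fun i => ?_)
  · have h5 : (red s v).1 = (red s v').1 := by rw [h]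
    exact h5
  · rw [← h1 i, ← h2 i, h]

/-- the signs -/
def sg {m : ℕ} (α β : Fin m → ℕ) (i : Fin m) : Bool := decide (α i = β i + 1)

/-- the multiples of the slope -/
def ee {m : ℕ} (β : Fin m → ℕ) (n : ℕ) (i : Fin m) : ℕ := β i * n

lemma value_eq {m : ℕ} (α β : Fin m → ℕ) (hαβ : Shape α β) (t : ℕ) (s : Fin m → ℕ) (H : ℕ) (v : ℕ × (Fin m → ℕ))
    (hv : v ∈ Box t s H) (i : Fin m) (n x : ℕ) (hx : x ≤ n) :
    (((red s v).2 i + Pool.Agent.H570.CD.wG s (ee β n) (sg α β) i (red s v).1 x : ℕ) : ℤ) =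
      val α β v i x ((n : ℤ) - x) := by
  have h1 := (red_mem t s H v hv).2 i
  have h2 : (red s v).1 = v.1 := rfl
  unfold Pool.Agent.H570.CD.wG val sg ee
  rw [h2]
  by_cases h : α i = β i + 1
  · rw [if_pos (by simpa using h), ← add_assoc, h1, h]
    push_cast; ring
  · have h3 : β i = α i + 1 := (hαβ i).resolve_left h
    rw [if_neg (by simpa using h), ← add_assoc, h1]
    have h4 : x ≤ β i * n := hx.trans (Nat.le_mul_of_pos_left _ (by omega))
    push_cast [Nat.cast_sub h4]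
    rw [h3]
    push_cast; ring

lemma form_eq {m : ℕ} (α β : Fin m → ℕ) (hαβ : Shape α β) (t : ℕ) (s : Fin m → ℕ) (H : ℕ) (v : ℕ × (Fin m → ℕ))
    (hv : v ∈ Box t s H) (i : Fin m) (n : ℕ) (x : ℤ) :
    (Pool.Agent.H570.CD.lG s (ee β n) (sg α β) (red s v) i).1 + x *
      (Pool.Agent.H570.CD.lG s (ee β n) (sg α β) (red s v) i).2 = val α β v i x ((n : ℤ) - x) := by
  have h1 := (red_mem t s H v hv).2 i
  have h2 : (red s v).1 = v.1 := rfl
  have h1' : ((red s v).2 i : ℤ) + s i = v.2 i := by exact_mod_cast h1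
  unfold Pool.Agent.H570.CD.lG val sg ee Pool.Agent.H570.CD.sgn
  simp only [h2, h1']
  by_cases h : α i = β i + 1
  · rw [if_pos (by simpa using h), h]
    push_cast; ring
  · have h3 : β i = α i + 1 := (hαβ i).resolve_left h
    rw [if_neg (by simpa using h), h3]
    push_cast; ring

lemma rho_eq {m : ℕ} (α β : Fin m → ℕ) (hαβ : Shape α β) (t : ℕ) (s : Fin m → ℕ) (H : ℕ) (v : ℕ × (Fin m → ℕ))
    (hv : v ∈ Box t s H) (n p : ℕ) :
    Pool.Agent.H570.CD.nuZ (Pool.Agent.H570.CD.lG s (ee β n) (sg α β) (red s v)) p = rho α β v n p := by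
  unfold Pool.Agent.H570.CD.nuZ rho
  congr 1
  refine Finset.filter_congr fun x _ => exists_congr fun i => ?_
  rw [form_eq α β hαβ t s H v hv i n x]

lemma series_eq {m : ℕ} (α β : Fin m → ℕ) (hαβ : Shape α β) (t : ℕ) (s : Fin m → ℕ) (H : ℕ) (v : ℕ × (Fin m → ℕ))
    (hv : v ∈ Box t s H) (n : ℕ) :
    Pool.Agent.H570.CD.SPZ (Pool.Agent.H570.CD.lG s (ee β n) (sg α β) (red s v)) = partialSeries α β v n := by
  funext z
  unfold Pool.Agent.H570.CD.SPZ partialSeries Pool.Agent.H570.CD.sfZ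
  refine Finset.prod_congr rfl fun p _ => ?_
  rw [rho_eq α β hαβ t s H v hv n p]

lemma primes_iff {m : ℕ} (α β : Fin m → ℕ) (hαβ : Shape α β) (t : ℕ) (s : Fin m → ℕ) (H : ℕ) (v : ℕ × (Fin m → ℕ))
    (hv : v ∈ Box t s H) (n x : ℕ) (hx : x ≤ n) :
    Pool.Agent.H570.CD.AllP (Pool.Agent.H570.CD.wG s (ee β n) (sg α β)) (red s v) x ↔ AllPrime α β v x (n - x) := by
  unfold Pool.Agent.H570.CD.AllP AllPrime
  refine forall_congr' fun i => ?_
  rw [Nat.cast_sub hx, ← value_eq α β hαβ t s H v hv i n x hx]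
  exact Nat.prime_iff_prime_int

lemma count_eq {m : ℕ} (α β : Fin m → ℕ) (hαβ : Shape α β) (t : ℕ) (s : Fin m → ℕ) (H : ℕ) (v : ℕ × (Fin m → ℕ))
    (hv : v ∈ Box t s H) (T : ℕ) :
    Pool.Agent.H570.CD.PiW (Pool.Agent.H570.CD.wG s (ee β (T + 1)) (sg α β)) (red s v) T = reps α β v (T + 1) := by
  classical
  unfold Pool.Agent.H570.CD.PiW reps
  have h1 : Icc 1 T = Ioo 0 (T + 1) := by
    ext x
    rw [mem_Icc, mem_Ioo]
    omega
  rw [h1]
  congr 1
  exact Finset.filter_congr fun x hx => primes_iff α β hαβ t s H v hv (T + 1) x (mem_Ioo.1 hx).2.le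

lemma lower {m : ℕ} (c : ℝ) (α β : Fin m → ℕ) (v : ℕ × (Fin m → ℕ)) (n : ℕ) (S : ℝ)
    (hc : ∀ z, partialSeries α β v n z ≠ 0 → c ≤ partialSeries α β v n z)
    (hS : Tendsto (partialSeries α β v n) atTop (𝓝 S)) (h : ∀ p : ℕ, p.Prime → rho α β v n p < p) : c ≤ S := by
  refine ge_of_tendsto' hS fun z => hc z ?_
  unfold partialSeries
  refine Finset.prod_ne_zero_iff.2 fun p hp => ?_
  have hpp := (Finset.mem_filter.1 hp).2
  have hp2 : (2 : ℝ) ≤ p := by exact_mod_cast hpp.two_le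
  have h1 : (rho α β v n p : ℝ) < p := by exact_mod_cast h p hpp
  have h2 : (rho α β v n p : ℝ) / p < 1 := by rw [div_lt_one (by linarith)]; exact h1
  have h3 : 1 / (p : ℝ) < 1 := by rw [div_lt_one (by linarith)]; linarith
  exact div_ne_zero (by linarith) (pow_ne_zero _ (by linarith))

/-- the multiples of the slope, for the sums `T + 1` with small `T` -/
noncomputable def eT {m : ℕ} (β : Fin m → ℕ) (X : ℝ) (T : ℕ) (i : Fin m) : ℕ :=
  open Classical in if (T : ℝ) ≤ X then β i * (T + 1) else T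

lemma form_of {m : ℕ} (c₀ ε : ℝ) (α β : Fin m → ℕ) (hαβ : Shape α β) (t : ℕ) (s : Fin m → ℕ) (H : ℕ) (v : ℕ × (Fin m → ℕ))
    (hv : v ∈ Box t s H) (X : ℝ) (T : ℕ) (hT : (T : ℝ) ≤ X)
    (hlow : ∀ (v : Fin m → ℤ × ℤ), ∀ z : ℕ, Pool.Agent.H570.CD.SPZ v z ≠ 0 → c₀ ≤ Pool.Agent.H570.CD.SPZ v z)
    (h : ¬ Pool.Agent.H570.CD.Bd s (eT β X) (sg α β) ε (Real.log H) T (red s v)) : Formula α β c₀ ε H v (T + 1) := by
  have he : eT β X T = ee β (T + 1) := by
    funext i
    unfold eT ee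
    rw [if_pos hT]
  unfold Pool.Agent.H570.CD.Bd at h
  rw [not_not, he] at h
  obtain ⟨S, hS, hS2⟩ := h
  have hlow' := hlow (Pool.Agent.H570.CD.lG s (ee β (T + 1)) (sg α β) (red s v))
  rw [series_eq α β hαβ t s H v hv (T + 1)] at hS hlow'
  refine ⟨S, hS, fun hp => lower c₀ α β v (T + 1) S hlow' hS hp, ?_⟩
  rw [← count_eq α β hαβ t s H v hv T]
  have e1 : (((T + 1 : ℕ) : ℝ) - 1) = T := by push_cast; ring
  rw [e1]
  exact hS2

open Classical in
lemma failures_le {m : ℕ} (c₀ ε : ℝ) (α β : Fin m → ℕ) (H : ℕ) (v : ℕ × (Fin m → ℕ)) (N : ℕ) (hN : 1 ≤ N) (P : ℕ → Prop)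
    (h : ∀ T, 1 ≤ T → T ≤ N - 1 → ¬ P T → Formula α β c₀ ε H v (T + 1)) :
    failures α β c₀ ε H v N ≤ 1 + ((Icc 1 (N - 1)).filter P).card := by
  unfold failures
  have h1 : (Icc 1 N).filter (fun n => ¬ Formula α β c₀ ε H v n) ⊆ insert 1 (((Icc 1 (N - 1)).filter P).image (fun T => T + 1)) := by
    intro n hn
    obtain ⟨h2, h3⟩ := Finset.mem_filter.1 hn
    have h4 := mem_Icc.1 h2
    by_cases h5 : n = 1
    · rw [h5]; exact Finset.mem_insert_self _ _
    · refine Finset.mem_insert_of_mem (Finset.mem_image.2 ⟨n - 1, Finset.mem_filter.2 ⟨mem_Icc.2 ⟨by omega, by omega⟩, ?_⟩, by omega⟩)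
      by_contra h6
      have h7 := h (n - 1) (by omega) (by omega) h6
      have h8 : n - 1 + 1 = n := by omega
      rw [h8] at h7
      exact h3 h7
  have h2 := Finset.card_le_card h1
  have h3 := Finset.card_insert_le 1 (((Icc 1 (N - 1)).filter P).image (fun T => T + 1))
  have h4 := Finset.card_image_le (s := (Icc 1 (N - 1)).filter P) (f := fun T => T + 1)
  omega

/-- the sum `T + 1` is represented -/
def Rp {m : ℕ} (α β : Fin m → ℕ) (T : ℕ) (v : ℕ × (Fin m → ℕ)) : Prop :=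
  ∃ x y : ℕ, 1 ≤ x ∧ 1 ≤ y ∧ x + y = T + 1 ∧ AllPrime α β v x y

open Classical in
lemma represented_le {m : ℕ} (α β : Fin m → ℕ) (v : ℕ × (Fin m → ℕ)) (N : ℕ) :
    represented α β v N ≤ ((Icc 1 (N - 1)).filter (fun T => Rp α β T v)).card := by
  unfold represented
  have h1 : (Icc 1 N).filter (fun n => ∃ x y : ℕ, 1 ≤ x ∧ 1 ≤ y ∧ x + y = n ∧ AllPrime α β v x y) ⊆
      ((Icc 1 (N - 1)).filter (fun T => Rp α β T v)).image (fun T => T + 1) := by
    intro n hn
    obtain ⟨h2, x, y, hx, hy, hxy, h3⟩ := Finset.mem_filter.1 hn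
    have h4 := mem_Icc.1 h2
    exact Finset.mem_image.2 ⟨n - 1, Finset.mem_filter.2 ⟨mem_Icc.2 ⟨by omega, by omega⟩, x, y, hx, hy, by omega, h3⟩, by omega⟩
  exact (Finset.card_le_card h1).trans Finset.card_image_le

lemma low_T {m : ℕ} (α β : Fin m → ℕ) (hαβ : Shape α β) (t : ℕ) (s : Fin m → ℕ) (H : ℕ) (hH : 2 ≤ H) (D : ℝ)
    (hD : ∀ (k : ℕ) (w : Fin k → ℕ → ℕ → ℕ) (t H K0 : ℕ), 2 ≤ H →
      ∀ F : Finset (ℕ × (Fin k → ℕ)), (∀ v ∈ F, v ∈ Pool.Agent.H570.CD.Om k t H ∧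
        ∃ n : ℕ, 1 ≤ n ∧ n ≤ K0 ∧ Pool.Agent.H570.CD.AllP w v n) →
      (F.card : ℝ) ≤ K0 * ((D / Real.log H) ^ k * (H : ℝ) ^ (k + 1))) (T : ℕ) (F : Finset (ℕ × (Fin m → ℕ)))
    (hF : ∀ v ∈ F, v ∈ Box t s H ∧ Rp α β T v) :
    (F.card : ℝ) ≤ ((D / Real.log H) ^ m * T) * (H : ℝ) ^ (m + 1) := by
  have h1 := hD m (Pool.Agent.H570.CD.wG s (ee β (T + 1)) (sg α β)) t H T hH (F.image (red s)) ?_
  · rw [Finset.card_image_of_injOn (fun v hv v' hv' hvv =>
      red_inj t s H v v' (hF v (Finset.mem_coe.1 hv)).1 (hF v' (Finset.mem_coe.1 hv')).1 hvv)] at h1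
    refine h1.trans (le_of_eq ?_)
    ring
  · intro v' hv'
    obtain ⟨v, hv, rfl⟩ := Finset.mem_image.1 hv'
    obtain ⟨h2, x, y, hx, hy, hxy, h5⟩ := hF v hv
    refine ⟨(red_mem t s H v h2).1, x, hx, by omega, (primes_iff α β hαβ t s H v h2 (T + 1) x (by omega)).2 ?_⟩
    have : T + 1 - x = y := by omega
    rw [this]; exact h5

open Classical in
/-- Let `m ≥ 1`. There is `c₀ > 0`, and for every `ε > 0` there are `0 < c < C` such that for all `A` and all large `H`: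
let `α_i, β_i ≤ (log H) ^ A` be non-negative integers with `α_i - β_i = ± 1`, and consider the families
`f_i(x, y) = a_i + d (α_i x + β_i y)`, where `(d, a_1, …, a_m)` runs through a box of side `H` with corner of height
at most `H (log H) ^ A`. For all but at most `ε H ^ (m + 1)` of the families, and simultaneously for ALL `N` with
`C (log H) ^ m ≤ N ≤ (log H) ^ A`, all but at most `ε N` of the `n ≤ N` satisfy the formula predicted for the number of
the representations `n = x + y`, `x, y ≥ 1`, with all `f_i(x, y)` prime. And for all but at most `ε H ^ (m + 1)` of the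
families, for ALL `N ≤ c (log H) ^ m` at most `ε N` of the `n ≤ N` are represented. -/
theorem result (m : ℕ) (hm : 1 ≤ m) : ∃ c₀ : ℝ, 0 < c₀ ∧ ∀ ε : ℝ, 0 < ε → ∃ c C : ℝ, 0 < c ∧ c < C ∧
    ∀ A : ℕ, ∀ᶠ H : ℕ in atTop, ∀ (t : ℕ) (s α β : Fin m → ℕ), Shape α β →
    (t : ℝ) ≤ H * Real.log H ^ A → (∀ i, (s i : ℝ) ≤ H * Real.log H ^ A) →
    (∀ i, (α i : ℝ) ≤ Real.log H ^ A ∧ (β i : ℝ) ≤ Real.log H ^ A) →
    (((Box t s H).filter (fun v => ∃ N : ℕ, C * Real.log H ^ m ≤ N ∧ (N : ℝ) ≤ Real.log H ^ A ∧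
      ε * N < failures α β c₀ ε H v N)).card : ℝ) ≤ ε * (H : ℝ) ^ (m + 1) ∧
    (((Box t s H).filter (fun v => ∃ N : ℕ, (N : ℝ) ≤ c * Real.log H ^ m ∧
      ε * N < represented α β v N)).card : ℝ) ≤ ε * (H : ℝ) ^ (m + 1) := by
  obtain ⟨c₀, hc₀, hlow⟩ := Pool.Agent.H570.CD.SPZ_lower m
  refine ⟨c₀, hc₀, fun ε hε => ?_⟩
  obtain ⟨C, hC0, hC⟩ := Pool.Agent.H570.CD.q_main m hm (ε / 2) (by positivity)
  obtain ⟨D, hD1, hD⟩ := Pool.Agent.H570.CD.lowO
  have hD0 : 0 < D := by linarith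
  set C' : ℝ := C + 1 + 2 / ε with hC'
  have hC'0 : 0 < 2 / ε := by positivity
  have hc0 : 0 < min (ε ^ 2 / (8 * D ^ m)) (C / 2) := by positivity
  refine ⟨min (ε ^ 2 / (8 * D ^ m)) (C / 2), C', hc0, lt_of_le_of_lt (min_le_right _ _) (by linarith), fun A => ?_⟩
  set c : ℝ := min (ε ^ 2 / (8 * D ^ m)) (C / 2) with hc
  filter_upwards [hC (2 * A + 1), Pool.Agent.H570.LQ.ev1 2, eventually_ge_atTop 3] with
    H hH hx2 hH3 t s α β hαβ ht hs hab
  have hHr : (3 : ℝ) ≤ H := by exact_mod_cast hH3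
  set x := Real.log H with hxd
  have hx1 : 1 ≤ x := by linarith
  have hlog : 0 < x := by linarith
  have hxm : 1 ≤ x ^ m := one_le_pow₀ hx1
  have hxA : 1 ≤ x ^ A := one_le_pow₀ hx1
  have hxA2 : x ^ A ≤ x ^ (2 * A + 1) := pow_le_pow_right₀ hx1 (by omega)
  have hxAA : x ^ (2 * A + 1) = x ^ A * (x ^ A * x) := by ring
  constructor
  · set F := (Box t s H).filter (fun v => ∃ N : ℕ, C' * x ^ m ≤ N ∧ (N : ℝ) ≤ x ^ A ∧
      ε * N < failures α β c₀ ε H v N) with hF
    have h1 := hH t s (eT β (x ^ A)) (sg α β) ?_ ?_ ?_ ?_ (F.image (red s)) ?_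
    · rw [Finset.card_image_of_injOn (fun v hv v' hv' hvv => red_inj t s H v v'
        (Finset.mem_filter.1 (Finset.mem_coe.1 hv)).1 (Finset.mem_filter.1 (Finset.mem_coe.1 hv')).1 hvv)] at h1
      have : 0 ≤ ε * (H : ℝ) ^ (m + 1) := by positivity
      linarith
    · exact ht.trans (mul_le_mul_of_nonneg_left hxA2 (by linarith))
    · exact fun i => (hs i).trans (mul_le_mul_of_nonneg_left hxA2 (by linarith))
    · intro T i hT
      unfold eT
      split_ifs with h2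
      · push_cast
        rw [hxAA]
        refine mul_le_mul (hab i).2 ?_ (by positivity) (by linarith)
        have h3 : x ^ A * 2 ≤ x ^ A * x := mul_le_mul_of_nonneg_left hx2 (by linarith)
        linarith
      · exact hT
    · intro T i hi
      unfold sg at hi
      have h2 : ¬ α i = β i + 1 := by simpa using hi
      have h3 : β i = α i + 1 := (hαβ i).resolve_left h2
      unfold eT
      split_ifs with h5
      · have h4 : T + 1 ≤ β i * (T + 1) := Nat.le_mul_of_pos_left _ (by omega)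
        omega
      · exact le_rfl
    · intro v' hv'
      obtain ⟨v, hv, rfl⟩ := Finset.mem_image.1 hv'
      obtain ⟨h2, N, hN1, hN2, hN3⟩ := Finset.mem_filter.1 hv
      have hN4 : C' ≤ N := by
        have : C' * 1 ≤ C' * x ^ m := mul_le_mul_of_nonneg_left hxm (by linarith)
        linarith
      have hN5 : (1 : ℝ) ≤ N := by linarith
      have hN6 : 1 ≤ N := by exact_mod_cast hN5
      have hcast : ((N - 1 : ℕ) : ℝ) = N - 1 := by push_cast [Nat.cast_sub hN6]; ring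
      refine ⟨(red_mem t s H v h2).1, N - 1, ?_, ?_, ?_⟩
      · rw [hcast]
        have h3 : C' * x ^ m = C * x ^ m + x ^ m + 2 / ε * x ^ m := by rw [hC']; ring
        have h4 : 0 ≤ 2 / ε * x ^ m := by positivity
        linarith
      · rw [hcast]; linarith
      · have h3 := failures_le c₀ ε α β H v N hN6
          (fun T => Pool.Agent.H570.CD.Bd s (eT β (x ^ A)) (sg α β) (ε / 2) x T (red s v)) (fun T hT1 hT2 hT3 => by
            have hTr : (T : ℝ) ≤ x ^ A := by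
              have h4 : (T : ℝ) ≤ ((N - 1 : ℕ) : ℝ) := by exact_mod_cast hT2
              rw [hcast] at h4
              linarith
            refine form_of c₀ ε α β hαβ t s H v h2 (x ^ A) T hTr hlow ?_
            intro h5
            apply hT3
            intro h6
            exact h5 (Pool.Agent.H570.CD.form_mono _ _ ε (ε / 2) T x (red s v) (by positivity) (by linarith) h6))
        have h4 : (failures α β c₀ ε H v N : ℝ) ≤ 1 + (((Icc 1 (N - 1)).filter
          (fun T => Pool.Agent.H570.CD.Bd s (eT β (x ^ A)) (sg α β) (ε / 2) x T (red s v))).card : ℝ) := by exact_mod_cast h3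
        have h5 : 1 ≤ ε / 2 * N := by
          have h6 : 2 / ε ≤ N := by linarith
          rw [div_le_iff₀ hε] at h6
          linarith
        rw [hcast]
        have h6 : 0 ≤ ε / 2 := by linarith
        linarith
  · have h1 := Pool.Agent.H570.CD.low_ranges (Box t s H) (Rp α β) ⌊c * x ^ m⌋₊ (ε / 2) ((D / x) ^ m) ((H : ℝ) ^ (m + 1))
      (by positivity) (by positivity) (by positivity) (fun T _ _ =>
        low_T α β hαβ t s H (by omega) D hD T _ fun v hv => Finset.mem_filter.1 hv)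
    have h2 : (Box t s H).filter (fun v => ∃ N : ℕ, (N : ℝ) ≤ c * x ^ m ∧ ε * N < represented α β v N) ⊆
        (Box t s H).filter (fun v => ∃ N, 1 ≤ N ∧ N ≤ ⌊c * x ^ m⌋₊ ∧ 2 * (ε / 2) * N <
          (((Icc 1 N).filter (fun T => Rp α β T v)).card : ℝ)) := by
      intro v hv
      obtain ⟨h3, N, hN1, hN2⟩ := Finset.mem_filter.1 hv
      have h4 := represented_le α β v N
      have h4' : (represented α β v N : ℝ) ≤ (((Icc 1 (N - 1)).filter (fun T => Rp α β T v)).card : ℝ) := by exact_mod_cast h4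
      have hN0 : (0 : ℝ) ≤ N := Nat.cast_nonneg _
      have h5 : 2 ≤ N := by
        by_contra h6
        have h7 : Icc 1 (N - 1) = ∅ := Finset.Icc_eq_empty (by omega)
        rw [h7, Finset.filter_empty, Finset.card_empty, Nat.cast_zero] at h4'
        have : 0 ≤ ε * N := by positivity
        linarith
      have h6 : ((N - 1 : ℕ) : ℝ) ≤ N := by exact_mod_cast Nat.sub_le _ _
      refine Finset.mem_filter.2 ⟨h3, N - 1, by omega, Nat.le_floor (h6.trans hN1), ?_⟩
      have h7 : 2 * (ε / 2) * ((N - 1 : ℕ) : ℝ) ≤ ε * N := by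
        have := mul_le_mul_of_nonneg_left h6 hε.le
        linarith
      linarith
    have h3 : (((Box t s H).filter (fun v => ∃ N : ℕ, (N : ℝ) ≤ c * x ^ m ∧ ε * N < represented α β v N)).card : ℝ) ≤
        (((Box t s H).filter (fun v => ∃ N, 1 ≤ N ∧ N ≤ ⌊c * x ^ m⌋₊ ∧ 2 * (ε / 2) * N <
          (((Icc 1 N).filter (fun T => Rp α β T v)).card : ℝ))).card : ℝ) := by
      exact_mod_cast Finset.card_le_card h2
    refine h3.trans (h1.trans (mul_le_mul_of_nonneg_right ?_ (by positivity)))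
    have h4 : (⌊c * x ^ m⌋₊ : ℝ) ≤ c * x ^ m := Nat.floor_le (by positivity)
    have h5 : c ≤ ε ^ 2 / (8 * D ^ m) := min_le_left _ _
    calc 1 / (ε / 2) * (4 * (D / x) ^ m * (⌊c * x ^ m⌋₊ : ℝ)) ≤ 1 / (ε / 2) * (4 * (D / x) ^ m * (ε ^ 2 / (8 * D ^ m) * x ^ m)) := by
          refine mul_le_mul_of_nonneg_left (mul_le_mul_of_nonneg_left (h4.trans ?_) (by positivity)) (by positivity)
          exact mul_le_mul_of_nonneg_right h5 (by positivity)
      _ = ε := by rw [div_pow]; field_simp; norm_num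

end Pool.Agent.Results.MP_0da313_nt.AlmostEveryTotal
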