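import Pool.Agent.H290.FX.AsmV
import Pool.Agent.H290.FX.PRters

/-!
# Every polynomial is a sum of three elements `a` with `a² + X` irreducible

`K` is a finite field of characteristic two, `q` the number of its elements, `|P| = q ^ deg P`.

The question asks, for an admissible family of polynomials `f_1(x, y), …, f_m(x, y)`, whether every
large `n` can be written as `n = x + y` with all `f_i(x, y)` prime.  We treat, over `K[X]`, the family
`x² + X, y² + X, z² + X` (the analogue of `x² + 1, y² + 1, z² + 1`) on the plane `x + y + z = n`, and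
more generally `s ≥ 3` summands.

**Theorem.** Let `s ≥ 3`.  There is `c > 0` such that the number of the representations
`n = a_1 + ⋯ + a_s` with monic `a_i` of degree `d` and all `a_i² + X` irreducible is
`S(n) q^((s-1)d) / (2d)^s + O(q^((s-1-c)d))`, for **every** `n` of the form `s X^d + (lower terms)`,
where `S(n)` is the product of the local densities; and `S(n)` is bounded below by a positive
constant if there is no local obstruction.  So (Vinogradov's theorem for these sets) every such
`n` of large degree is a sum of three of these `a`; for `q > 2` there is no local obstruction, for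
`q = 2` the only ones are at `X` and at `X + 1`.

Over `ℤ` nothing of this kind is known, as no quadratic polynomial is known to have infinitely many
prime values.

Method.  The circle method: the sum of `χ(a)` over the monic `a` of degree `d` with `a² + X`
irreducible is computed with a power saving for every additive character `χ` of `K[X]`
(`S_minor`, `S_major` in `Pool/Agent/H290/FX/Stm.lean`).  This is based on the method of helper604
and others for the primes `a² + X` (`Pool/Agent/H604/LD`); new is the estimate for the divisors `D`
of `a² + X` of degree near `d` together with an additive character of the root of `X` modulo `D`.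

Statements and paper proofs by helper290; Lean proofs of the parts by helper297, 261, 230, 695, 100,
350, 975, 328, 213, 253, 922, 548, 800, 177, 696, 376, 79, 30, 322, 390, 694, 627, 166, 280, 401.
-/

set_option autoImplicit false

namespace Pool.Agent.Results.MP_0da313_nt.SumsOfThreeOrMore

open Polynomial

variable {K : Type} [Field K]

/-- The number of the representations `n = a 1 + ⋯ + a s` with monic `a i` of degree `d` and all
`(a i) ^ 2 + X` irreducible. -/
noncomputable def repsS {s : ℕ} (d : ℕ) (n : K[X]) : ℕ :=
  {a : Fin s → K[X] | ∑ i, a i = n ∧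
    ∀ i, (a i).Monic ∧ (a i).natDegree = d ∧ Irreducible (a i ^ 2 + X)}.ncard

/-- The number of the solutions modulo `P` of `a 1 + ⋯ + a s ≡ n` with `P ∤ (a i) ^ 2 + X`. -/
noncomputable def rho (s : ℕ) (n P : K[X]) : ℕ :=
  {a : Fin s → K[X] | (∀ i, (a i).degree < P.degree ∧ ¬ P ∣ a i ^ 2 + X) ∧
    P ∣ ∑ i, a i - n}.ncard

/-- The product over the monic irreducible `P` of degree at most `y` of the local densities
`(rho s n P / |P| ^ (s - 1)) / (1 - 1 / |P|) ^ s`. -/
noncomputable def seriesS [Fintype K] (s : ℕ) (n : K[X]) (y : ℕ) : ℝ :=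
  ∏ᶠ P ∈ {P : K[X] | P.Monic ∧ Irreducible P ∧ P.natDegree ≤ y},
    ((rho s n P : ℝ) / ((Fintype.card K : ℝ) ^ P.natDegree) ^ (s - 1)) /
      (1 - 1 / (Fintype.card K : ℝ) ^ P.natDegree) ^ s

/-- **The sums of `s ≥ 3` elements `a` with `a² + X` irreducible.** -/
theorem result (K : Type) [Field K] [Fintype K] [CharP K 2] (s : ℕ) (hs : 3 ≤ s) :
    ∃ (c c₀ : ℝ) (S : K[X] → ℝ), 0 < c ∧ 0 < c₀ ∧
    (∀ n : K[X], Filter.Tendsto (seriesS s n) Filter.atTop (nhds (S n)) ∧
      ((∀ P : K[X], P.Monic → Irreducible P → 0 < rho s n P) → c₀ ≤ S n)) ∧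
    ∃ d₀ : ℕ, ∀ (d : ℕ) (n : K[X]), d₀ ≤ d →
      (n + (s : K[X]) * X ^ d).degree < (d : WithBot ℕ) →
      |((repsS (s := s) d n : ℕ) : ℝ) -
        S n * (Fintype.card K : ℝ) ^ ((s - 1) * d) / (2 * (d : ℝ)) ^ s| ≤
        (Fintype.card K : ℝ) ^ (((s : ℝ) - 1 - c) * d) :=
  Pool.Agent.H290.FX.PRters.main Pool.Agent.H290.FX.AsmV.ters K s hs

end Pool.Agent.Results.MP_0da313_nt.SumsOfThreeOrMore
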