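import Mathlib
import Pool.Agent.H536.OC.U5b
import Pool.Agent.H536.OC.SLine

/-!
# Families with two linear polynomials along the lines `x + y = n`

Let `f₁ = α x + β y + γ` with `α ≠ β` and `α β ≤ 0` (for instance `2 x - 1` or `x`), let `f₂ = α' x + β' y + γ'` with
`α' ≠ β'`, not a multiple of `f₁`, and let `g₁, ..., g_m` be ANY polynomials in `x, y`. For every large `n` for which no
prime divides `f₁ f₂ g₁ ⋯ g_m` at all the integral points of the line `x + y = n` there are at least `n ^ 0.97` ways to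
write `n = x + y` with positive `x, y` such that `|f₁(x, y)|` is a prime, `|f₂(x, y)|` is a product of at most three
primes, all `> n ^ 0.11`, and all the `|g_i(x, y)|` are products of at most `R` primes; `R` depends only on `m` and the
degrees. More generally this holds with `x ≡ r (mod q)` for EVERY modulus `q ≤ n ^ δ` and EVERY class `r` modulo `q`
without a local obstruction (Siegel zeros are allowed).
-/

namespace Pool.Agent.Results.MP_0da313_nt.TwoLinearPolynomials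

/-- the value of `f` at the point `(x, n - x)` of the line `x + y = n` -/
noncomputable def value (f : MvPolynomial (Fin 2) ℤ) (n x : ℤ) : ℤ := MvPolynomial.eval ![x, n - x] f

/-- the linear polynomial `α x + β y + γ` -/
noncomputable def linear (α β γ : ℤ) : MvPolynomial (Fin 2) ℤ :=
  MvPolynomial.C α * MvPolynomial.X 0 + MvPolynomial.C β * MvPolynomial.X 1 + MvPolynomial.C γ

theorem result (m D : ℕ) : ∃ (δ : ℝ) (R : ℕ), 0 < δ ∧
    ∀ (α β γ α' β' γ' : ℤ) (g : Fin m → MvPolynomial (Fin 2) ℤ), (∀ i, (g i).totalDegree ≤ D) →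
    α ≠ β → α * β ≤ 0 → α' ≠ β' → ¬ ((α - β) * β' = (α' - β') * β ∧ (α - β) * γ' = (α' - β') * γ) →
    ∃ N : ℕ, ∀ n : ℕ, N ≤ n → ∀ q r : ℕ, 1 ≤ q → (q : ℝ) ≤ (n : ℝ) ^ δ →
    (∀ p : ℕ, p.Prime → ∃ x : ℤ, (p ∣ q → (p : ℤ) ∣ x - r) ∧
      ¬ (p : ℤ) ∣ value (linear α β γ) n x * value (linear α' β' γ') n x * ∏ i, value (g i) n x) →
    ∃ S : Finset ℕ, (n : ℝ) ^ (97 / 100 : ℝ) ≤ S.card ∧ ∀ x ∈ S, 1 ≤ x ∧ x < n ∧ x ≡ r [MOD q] ∧
      (value (linear α β γ) n x).natAbs.Prime ∧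
      1 < (value (linear α' β' γ') n x).natAbs ∧
      ArithmeticFunction.cardFactors (value (linear α' β' γ') n x).natAbs ≤ 3 ∧
      (∀ l : ℕ, l.Prime → l ∣ (value (linear α' β' γ') n x).natAbs → (n : ℝ) ^ (11 / 100 : ℝ) < l) ∧
      ∀ i, value (g i) n x ≠ 0 ∧ ArithmeticFunction.cardFactors (value (g i) n x).natAbs ≤ R := by
  obtain ⟨δ, R, hδ, h⟩ := Pool.Agent.H536.OC.line Pool.Agent.H536.OC.SPall m D
  refine ⟨δ, R, hδ, fun α β γ α' β' γ' g hD h1 h2 h3 h4 => ?_⟩
  obtain ⟨N, hN⟩ := h α β γ α' β' γ' g hD h1 h2 h3 h4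
  refine ⟨N, fun n hn q r hq hqn hloc => hN n hn q r hq hqn (fun p hp => ?_)⟩
  obtain ⟨x, hx1, hx2⟩ := hloc p hp
  refine ⟨x, hx1, fun hd => hx2 ((hd.mul_right _).mul_right _), fun hd => hx2 ((hd.mul_left _).mul_right _), fun i hd => hx2 ?_⟩
  exact (hd.trans (Finset.dvd_prod_of_mem (fun i => value (g i) n x) (Finset.mem_univ i))).mul_left _

end Pool.Agent.Results.MP_0da313_nt.TwoLinearPolynomials
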