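import Pool.Agent.H76.PB.BinP

/-!
# Two systems of linear polynomials along the line `x + y = m`

For almost all `h ∈ [1, X] ^ k`, up to an arbitrary power of the logarithm, and all coefficients `a i` up to a power of
the logarithm, consider the `k + 1` linear polynomials `n`, `a i * n + h i`. Take ANY two of these systems (also the
same one twice), the first in the variable `x = n 0` and the second in the variable `y = n 1`. For almost all `m ≤ X`
the number of the representations `m = x + y` in positive integers for which prescribed polynomials have prime values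
(weighted with the logarithms) and prescribed other ones have values with a prescribed sign of the Liouville function
is the singular series of the family times the number of all representations times `2 ^ (-number of the signs)`, up to
`X / (log X) ^ A`, and the singular series is bounded from below unless some prime is an obstruction.
-/

set_option autoImplicit false

open Finset

namespace Pool.Agent.Results.MP_0da313_nt.TwoSystemsOfForms

/-- The Liouville function `λ(n) = (-1) ^ Ω(n)`. -/
def lam (n : ℕ) : ℤ := (-1) ^ ArithmeticFunction.cardFactors n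

/-- `log n` if `n` is a prime, and `0` otherwise. -/
noncomputable def logPrime (n : ℕ) : ℝ := if n.Prime then Real.log n else 0

/-- The values at `n` of the `k + 1` forms: `n` (the form number `0`) and `a i * n + h i`. -/
def forms {k : ℕ} (a h : Fin k → ℕ) (n : ℕ) : Fin (k + 1) → ℕ := Fin.cons n (fun i => a i * n + h i)

/-- The pairs of positive integers with the sum `m`. -/
def pairs (m : ℕ) : Finset (Fin 2 → ℕ) := (Fintype.piFinset fun _ : Fin 2 => Icc 1 m).filter (fun n => n 0 + n 1 = m)

/-- The number of the pairs of residue classes mod `p` with the sum `m` mod `p` such that no form which belongs to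
`P` is divisible by `p`. -/
def locCount {k : ℕ} (a h : Fin 2 → Fin k → ℕ) (P : Fin 2 → Finset (Fin (k + 1))) (m p : ℕ) : ℕ :=
  ((Fintype.piFinset fun _ : Fin 2 => range p).filter (fun n => (n 0 + n 1) % p = m % p ∧
    ∀ r, ∀ i ∈ P r, ¬ p ∣ forms (a r) (h r) (n r) i)).card

/-- The singular series: the product over the primes `p ≤ X` of the density `locCount / p` of the good classes, divided
by `(1 - 1 / p)` to the number of the forms which belong to `P`. -/
noncomputable def singular {k : ℕ} (X : ℕ) (a h : Fin 2 → Fin k → ℕ) (P : Fin 2 → Finset (Fin (k + 1))) (m : ℕ) : ℝ :=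
  ∏ p ∈ (Icc 1 X).filter Nat.Prime, ((locCount a h P m p : ℝ) / p) / (1 - 1 / (p : ℝ)) ^ (∑ r, (P r).card)

open Classical in
/-- Let `k`, `A`, `K` be fixed and let `X` be large. There is a set `B` of at most `X ^ k / (log X) ^ A` vectors in
`[1, X] ^ k` such that for any two vectors `h r ∈ [1, X] ^ k` outside `B` (equal ones are allowed), coefficients
`1 ≤ a r i ≤ (log X) ^ K` coprime to `h r i`, disjoint sets `P r`, `Q r` of forms and signs `ε r i`, for all `m ≤ X`
with at most `X / (log X) ^ A` exceptions: the sum, over the pairs of positive integers with the sum `m` and with the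
sign `ε r i` of `λ` at the forms of `Q r`, of the product of the logarithms of the forms of `P r`, if these are all
primes, times `2` to the number of the signs, is the singular series times the number of all the pairs, up to
`X / (log X) ^ A`. The singular series is at least `c > 0`, which depends only on `k`, `A`, `K`, unless some prime is an
obstruction. -/
theorem result : ∀ k A K : ℕ, ∃ c : ℝ, 0 < c ∧ ∃ X₀ : ℕ, ∀ X : ℕ, X₀ ≤ X →
    ∃ B ⊆ Fintype.piFinset (fun _ : Fin k => Icc 1 X), (B.card : ℝ) ≤ (X : ℝ) ^ k / Real.log X ^ A ∧
      ∀ h : Fin 2 → Fin k → ℕ, (∀ r, h r ∈ Fintype.piFinset (fun _ : Fin k => Icc 1 X) ∧ h r ∉ B) →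
        ∀ a : Fin 2 → Fin k → ℕ, (∀ r i, 1 ≤ a r i ∧ (a r i : ℝ) ≤ Real.log X ^ K ∧ (a r i).Coprime (h r i)) →
        ∀ P Q : Fin 2 → Finset (Fin (k + 1)), (∀ r, Disjoint (P r) (Q r)) →
        ∀ ε : Fin 2 → Fin (k + 1) → ℤ, (∀ r i, ε r i = 1 ∨ ε r i = -1) →
        ∃ E ⊆ Icc 1 X, (E.card : ℝ) ≤ X / Real.log X ^ A ∧ ∀ m ∈ Icc 1 X, m ∉ E →
        |2 ^ (∑ r, (Q r).card) *
            ∑ n ∈ (pairs m).filter (fun n => ∀ r, ∀ i ∈ Q r, lam (forms (a r) (h r) (n r) i) = ε r i),
              ∏ r, ∏ i ∈ P r, logPrime (forms (a r) (h r) (n r) i) -
          singular X a h P m * (pairs m).card| ≤ (X : ℝ) / Real.log X ^ A ∧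
        ((∀ p : ℕ, p.Prime → 0 < locCount a h P m p) → c ≤ singular X a h P m) :=
  Pool.Agent.H76.PB.binP

end Pool.Agent.Results.MP_0da313_nt.TwoSystemsOfForms
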